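import Mathlib

set_option autoImplicit false
open Filter

namespace Pool.Agent.Helper89.Bridged

section
variable {V : Type}

lemma norm1 (ξ : lp (fun _ : V => ℝ) 1) : ‖ξ‖ = ∑' w, |(ξ : V → ℝ) w| := by
  have := lp.norm_rpow_eq_tsum (p := 1) (by simp) ξ
  simpa using this

lemma summ1 (ξ : lp (fun _ : V => ℝ) 1) : Summable (fun w => |(ξ : V → ℝ) w|) := by
  have := (lp.memℓp ξ).summable (by simp)
  simpa using this

lemma sqrt_sub_sq {a b : ℝ} (ha : 0 ≤ a) (hb : 0 ≤ b) :
    (Real.sqrt a - Real.sqrt b) ^ 2 ≤ |a - b| := by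
  have h1 := Real.sq_sqrt ha
  have h2 := Real.sq_sqrt hb
  have h3 := Real.sqrt_nonneg a
  have h4 := Real.sqrt_nonneg b
  rcases le_total b a with h | h
  · have h5 := Real.sqrt_le_sqrt h
    rw [abs_of_nonneg (by linarith)]
    nlinarith
  · have h5 := Real.sqrt_le_sqrt h
    rw [abs_of_nonpos (by linarith)]
    nlinarith

lemma walk_bound (G : SimpleGraph V) (ξ : V → lp (fun _ : V => ℝ) 1) (ε : ℝ)
    (h : ∀ x y, G.Adj x y → ‖ξ x - ξ y‖ ≤ ε) {x y : V} (p : G.Walk x y) :
    ‖ξ x - ξ y‖ ≤ ε * p.length := by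
  induction p with
  | nil => simp
  | @cons u v w huv q ih =>
    have h1 : ξ u - ξ w = (ξ u - ξ v) + (ξ v - ξ w) := by abel
    rw [h1]
    refine (norm_add_le _ _).trans ?_
    have := h u v huv
    push_cast [SimpleGraph.Walk.length_cons]
    nlinarith

lemma dist_bound (G : SimpleGraph V) (hG : G.Connected) (ξ : V → lp (fun _ : V => ℝ) 1) (ε : ℝ)
    (h : ∀ x y, G.Adj x y → ‖ξ x - ξ y‖ ≤ ε) (x y : V) :
    ‖ξ x - ξ y‖ ≤ ε * G.dist x y := by
  obtain ⟨p, hp⟩ := hG.exists_walk_length_eq_dist x y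
  have := walk_bound G ξ ε h p
  rwa [hp] at this

end

theorem coarse_of_reiter {V : Type} (G : SimpleGraph V) (hG : G.Connected)
    (h : ∀ ε : ℝ, 0 < ε → ∃ (S : ℕ) (ξ : V → lp (fun _ : V => ℝ) 1),
      (∀ x w, 0 ≤ (ξ x : V → ℝ) w) ∧ (∀ x, ‖ξ x‖ = 1) ∧
      (∀ x w, (ξ x : V → ℝ) w ≠ 0 → G.dist x w ≤ S) ∧
      (∀ x y, G.Adj x y → ‖ξ x - ξ y‖ ≤ ε)) :
    ∃ (H : Type) (_ : NormedAddCommGroup H) (_ : InnerProductSpace ℝ H)
      (_ : CompleteSpace H),
      ∃ (f : V → H) (ρm ρp : ℝ → ℝ),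
        Monotone ρm ∧ Monotone ρp ∧ Tendsto ρm atTop atTop ∧
        ∀ x y : V,
          ρm (G.dist x y : ℝ) ≤ ‖f x - f y‖ ∧
          ‖f x - f y‖ ≤ ρp (G.dist x y : ℝ) := by
  classical
  choose S ξ hpos hnorm hsupp hadj using fun n : ℕ => h ((1 / 2 : ℝ) ^ n) (by positivity)
  obtain ⟨x0⟩ := hG.nonempty
  -- the squared differences
  let D : V → V → ℕ × V → ℝ := fun x y p =>
    Real.sqrt ((ξ p.1 x : V → ℝ) p.2) - Real.sqrt ((ξ p.1 y : V → ℝ) p.2)
  have hD2 : ∀ x y n w, (D x y (n, w)) ^ 2 ≤ |((ξ n x - ξ n y : lp (fun _ : V => ℝ) 1) : V → ℝ) w| := by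
    intro x y n w
    have := sqrt_sub_sq (hpos n x w) (hpos n y w)
    simpa [D] using this
  have hsumn : ∀ x y n, Summable (fun w => (D x y (n, w)) ^ 2) := by
    intro x y n
    exact Summable.of_nonneg_of_le (fun w => sq_nonneg _) (fun w => hD2 x y n w)
      (summ1 (ξ n x - ξ n y))
  have htsn : ∀ x y n, ∑' w, (D x y (n, w)) ^ 2 ≤ (1 / 2 : ℝ) ^ n * G.dist x y := by
    intro x y n
    refine le_trans ((hsumn x y n).tsum_le_tsum (fun w => hD2 x y n w) (summ1 (ξ n x - ξ n y))) ?_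
    rw [← norm1]
    exact dist_bound G hG (ξ n) _ (hadj n) x y
  have hgeo : Summable (fun n : ℕ => (1 / 2 : ℝ) ^ n) := summable_geometric_two
  have hsum : ∀ x y, Summable (fun p : ℕ × V => (D x y p) ^ 2) := by
    intro x y
    rw [summable_prod_of_nonneg (fun p => sq_nonneg _)]
    refine ⟨fun n => hsumn x y n, ?_⟩
    exact Summable.of_nonneg_of_le (fun n => tsum_nonneg (fun w => sq_nonneg _))
      (fun n => htsn x y n) (hgeo.mul_right _)
  have htot : ∀ x y, ∑' p : ℕ × V, (D x y p) ^ 2 ≤ 2 * G.dist x y := by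
    intro x y
    rw [(hsum x y).tsum_prod' (fun n => hsumn x y n)]
    have h1 : ∑' n : ℕ, (1 / 2 : ℝ) ^ n * G.dist x y = 2 * G.dist x y := by
      rw [tsum_mul_right, tsum_geometric_two]
    rw [← h1]
    refine Summable.tsum_le_tsum (fun n => htsn x y n) ?_ (hgeo.mul_right _)
    exact Summable.of_nonneg_of_le (fun n => tsum_nonneg (fun w => sq_nonneg _))
      (fun n => htsn x y n) (hgeo.mul_right _)
  have hmem : ∀ x, Memℓp (D x x0) 2 := by
    intro x
    apply memℓp_gen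
    have := hsum x x0
    simpa using this
  let f : V → lp (fun _ : ℕ × V => ℝ) 2 := fun x => ⟨D x x0, hmem x⟩
  have hfsub : ∀ x y p, ((f x - f y : lp (fun _ : ℕ × V => ℝ) 2) : ℕ × V → ℝ) p = D x y p := by
    intro x y p
    simp [f, D, lp.coeFn_sub]
  have hfn : ∀ x y, ‖f x - f y‖ ^ 2 = ∑' p : ℕ × V, (D x y p) ^ 2 := by
    intro x y
    have := lp.norm_rpow_eq_tsum (p := 2) (by simp) (f x - f y)
    simp only [hfsub] at this
    simpa using this
  -- lower bound at one scale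
  have hone : ∀ x y n, (2 * S n < G.dist x y) → 1 ≤ ∑' w, (D x y (n, w)) ^ 2 := by
    intro x y n hn
    have hw : ∀ w, (D x y (n, w)) ^ 2 = |(ξ n x : V → ℝ) w| + |(ξ n y : V → ℝ) w| := by
      intro w
      have h0 : (ξ n x : V → ℝ) w = 0 ∨ (ξ n y : V → ℝ) w = 0 := by
        by_contra hcon
        push Not at hcon
        have h1 := hsupp n x w hcon.1
        have h2 := hsupp n y w hcon.2
        have h3 := hG.dist_triangle (u := x) (v := w) (w := y)
        rw [SimpleGraph.dist_comm (u := w)] at h3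
        omega
      rw [abs_of_nonneg (hpos n x w), abs_of_nonneg (hpos n y w)]
      rcases h0 with h0 | h0
      · simp only [D, h0, Real.sqrt_zero, zero_sub, even_two, Even.neg_pow,
          Real.sq_sqrt (hpos n y w), zero_add]
      · simp only [D, h0, Real.sqrt_zero, sub_zero, Real.sq_sqrt (hpos n x w), add_zero]
    rw [tsum_congr hw, (summ1 (ξ n x)).tsum_add (summ1 (ξ n y)), ← norm1, ← norm1, hnorm, hnorm]
    norm_num
  let N : ℝ → ℕ := fun t => ((Finset.range ⌈t⌉₊).filter (fun n => (2 * S n : ℝ) < t)).card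
  have hNmono : Monotone N := by
    intro s t hst
    apply Finset.card_le_card
    intro n hn
    simp only [Finset.mem_filter, Finset.mem_range] at hn ⊢
    exact ⟨lt_of_lt_of_le hn.1 (Nat.ceil_mono hst), lt_of_lt_of_le hn.2 hst⟩
  have hNtop : Tendsto N atTop atTop := by
    rw [tendsto_atTop_atTop]
    intro K
    obtain ⟨B, hB⟩ : ∃ B : ℝ, ∀ n ∈ Finset.range K, (2 * S n : ℝ) ≤ B := by
      refine ⟨∑ n ∈ Finset.range K, (2 * S n : ℝ), fun n hn => ?_⟩
      exact Finset.single_le_sum (f := fun n => (2 * S n : ℝ)) (fun i _ => by positivity) hn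
    refine ⟨max K (B + 1), fun t ht => ?_⟩
    have h1 : (K : ℝ) ≤ t := le_trans (le_max_left _ _) ht
    have h2 : B + 1 ≤ t := le_trans (le_max_right _ _) ht
    have h3 : Finset.range K ⊆ (Finset.range ⌈t⌉₊).filter (fun n => (2 * S n : ℝ) < t) := by
      intro n hn
      simp only [Finset.mem_filter, Finset.mem_range] at hn ⊢
      refine ⟨?_, ?_⟩
      · have : (K : ℝ) ≤ (⌈t⌉₊ : ℝ) := h1.trans (Nat.le_ceil t)
        have : K ≤ ⌈t⌉₊ := by exact_mod_cast this
        omega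
      · have := hB n (Finset.mem_range.mpr hn)
        linarith
    simpa using Finset.card_le_card h3
  refine ⟨lp (fun _ : ℕ × V => ℝ) 2, inferInstance, inferInstance, inferInstance, f,
    fun t => Real.sqrt (N t), fun t => Real.sqrt (2 * t), ?_, ?_, ?_, ?_⟩
  · intro s t hst
    exact Real.sqrt_le_sqrt (by exact_mod_cast hNmono hst)
  · intro s t hst
    exact Real.sqrt_le_sqrt (by linarith)
  · exact Real.tendsto_sqrt_atTop.comp (tendsto_natCast_atTop_atTop.comp hNtop)
  · intro x y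
    constructor
    · apply Real.sqrt_le_iff.mpr
      refine ⟨norm_nonneg _, ?_⟩
      rw [hfn, (hsum x y).tsum_prod' (fun n => hsumn x y n)]
      have hs : Summable (fun n => ∑' w, (D x y (n, w)) ^ 2) :=
        Summable.of_nonneg_of_le (fun n => tsum_nonneg (fun w => sq_nonneg _))
          (fun n => htsn x y n) (hgeo.mul_right _)
      refine le_trans ?_ (hs.sum_le_tsum
        ((Finset.range ⌈(G.dist x y : ℝ)⌉₊).filter (fun n => (2 * S n : ℝ) < (G.dist x y : ℝ)))
        (fun n _ => tsum_nonneg (fun w => sq_nonneg _)))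
      have hc : ∀ n ∈ (Finset.range ⌈(G.dist x y : ℝ)⌉₊).filter
          (fun n => (2 * S n : ℝ) < (G.dist x y : ℝ)), (1 : ℝ) ≤ ∑' w, (D x y (n, w)) ^ 2 := by
        intro n hn
        apply hone
        have := (Finset.mem_filter.mp hn).2
        exact_mod_cast this
      have := Finset.card_nsmul_le_sum _ _ _ hc
      simpa [N] using this
    · apply Real.le_sqrt_of_sq_le
      rw [hfn]
      exact htot x y

end Pool.Agent.Helper89.Bridged
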